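import Mathlib
import Pool.Agent.Q256.VW.Fin

set_option autoImplicit false

/-!
# Vojta's truncated inequality for almost all complete intersections and the coordinate hyperplanes

`X ⊂ ℙⁿ` is the zero set over `ℚ` of `s` forms `G_j` of degrees `e_j` and `D` is the sum of the
coordinate hyperplanes `x_i = 0`, `i ∈ K`; if `X` is a complete intersection, `K_X + D` has degree
`∑ e_j + |K| - (n + 1)`.  The `M` coefficients of the forms run through `[-H, H]`.  For almost all
`X` the inequality
`N_S^(1)(D, P) ≥ (deg (K_X + D) - ε) h(P) + (s - δ) log T`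
holds for ALL rational points `P` of `X` outside `D` which are cut out by `n` hyperplanes of `ℙⁿ`
with integral coefficients in `[-T, T]`, in particular for all points with `h(P) ≤ log T`; the
exceptional `X` are at most `C T^(M - δ)` in number (`T ≥ H`).  For one linear form and all the
coordinate hyperplanes this is the `n`-term `abc` inequality with random coefficients.

* `Box n d B` : forms of degree `d` in `n + 1` variables, integral coefficients in `[-B, B]`;
* `Prim y` : the integral vector `y` has coprime coordinates; `ht y` : its logarithmic height;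
* `CutOut T x` : `x` is the intersection point of `n` independent hyperplanes with integral
  coefficients in `[-T, T]`;
* `N1K S K y` : sum of `log p` over the primes `p` outside `S` dividing `∏_{i ∈ K} y_i`;
* `FailsW`, `CampW`, `IntW` : the systems for which the inequality fails at such a point, those with
  a zero of this kind whose coordinates in `K` are `m_i`-full outside `S`, and those for which the
  affine variety `x_0 ≠ 0` has an `S`-integral point of this kind.
-/

namespace Pool.Agent.Results.MP_44a246_nt.AlmostAllVarieties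

open Pool.Agent.Q256.CI Pool.Agent.Q256.VT Pool.Agent.Q256.VW

theorem result (n s : ℕ) (S : Finset ℕ) (e : Fin s → ℕ) :
    -- the truncated inequality for all points, for almost all systems
    (∀ (K : Finset (Fin (n + 1))) (ε : ℝ), 0 < ε → ∃ C : ℝ, ∀ (δ : ℝ) (H T : ℕ), 1 ≤ H → H ≤ T →
      (Nat.card (FailsW (n := n) S e K H T ε δ) : ℝ) ≤
        C * (T : ℝ) ^ ((∑ j, ((n + e j).choose n : ℝ)) - δ)) ∧
    -- zeros with `m_i`-full coordinates, pairs of general type
    (∀ (K : Finset (Fin (n + 1))) (m : Fin (n + 1) → ℕ), (∀ i ∈ K, 1 ≤ m i) →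
      (n : ℝ) + 1 < (∑ j, (e j : ℝ)) + ∑ i ∈ K, (1 - 1 / (m i : ℝ)) →
      ∃ C : ℝ, ∀ H T : ℕ, 1 ≤ H → H ≤ T →
        (Nat.card (CampW (n := n) S e K m H T) : ℝ) ≤
          C * (T : ℝ) ^ ((∑ j, ((n + e j).choose n : ℝ)) - s)) ∧
    -- integral points of affine varieties, log general type
    (n + 1 ≤ ∑ j, e j → ∃ C : ℝ, ∀ H T : ℕ, 1 ≤ H → H ≤ T →
      (Nat.card (IntW (n := n) S e H T) : ℝ) ≤
        C * (T : ℝ) ^ ((∑ j, ((n + e j).choose n : ℝ)) - s)) ∧
    -- the number of all systems, and the points of height at most `T`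
    (∀ H : ℕ, Nat.card {F : Fin s → MvPolynomial (Fin (n + 1)) ℤ // ∀ i, F i ∈ Box n (e i) H} =
      (2 * H + 1) ^ (∑ i, (n + e i).choose n)) ∧
    (∀ (T : ℕ) (y : Fin (n + 1) → ℤ), y ≠ 0 → (∀ k, |y k| ≤ T) →
      CutOut T (fun k => (y k : ℚ))) := by
  refine ⟨fun K ε hε => ?_, fun K m hm hsum => ?_, fun hsum => ?_, fun H => total e H,
    fun T y hy hT => cutOut_small T y hy hT⟩
  · obtain ⟨C, hC⟩ := failsW (n := n) S e K ε hε
    exact ⟨C, fun δ H T hH hHT => hC δ H T (hH.trans hHT) hHT⟩
  · obtain ⟨C, hC⟩ := campW (n := n) S e K m hm hsum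
    exact ⟨C, fun H T hH hHT => hC H T (hH.trans hHT) hHT⟩
  · obtain ⟨C, hC⟩ := intW (n := n) S e hsum
    exact ⟨C, fun H T hH hHT => hC H T (hH.trans hHT) hHT⟩

end Pool.Agent.Results.MP_44a246_nt.AlmostAllVarieties
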