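import Mathlib
import Pool.Agent.Q273.PD.Dim2
import Pool.Agent.Q273.PD.Lim

/-!
# The truncated Vojta inequality with an adelic target for hyperplane arrangements: the metric theory

`K` is a number field, `n ≥ 1`, and `a` an arrangement of `r` hyperplanes of `ℙ^n` over `K` (no general
position, any `r`). Let `X` be the log resolution of the arrangement obtained by blowing up all its
flats and `D` the reduced preimage of the arrangement, a normal crossings divisor. As in the starting
file `MP_9ec3f0_nt/HyperplaneArrangements` the height with respect to `K_X + D + (n + 1) H` is `hW`, and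
`N1` is the truncated counting function; the loss of `P` is `hW P - N1 P`, that is
`h_(K_X + D) + (n + 1) h - N¹_S(D)`. The target is an adelic point: `ξ = (ξ_w)_w` in `(K ⊗ ℝ)^n` and
`η = (η_v)_v` in the product over all primes `v` of `O_v^n`, and `m_V(P)` is the sum of the local
proximities `log max (1, 1 / max_j |target_j - x_j / x_0|)` of the rational point `P` to the target over
all infinite places and over the primes in the finite set `V`.

For almost every adelic point the inequality `h_(K_X + D)(P) + n m_V(P) ≤ N¹_S(D, P) + ε h(P) + C` holds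
for all arrangements, all `S`, `V` and all `P` with `n m_V(P) ≥ (n + 1/2 + ε) h(P)` or of loss at most
`h(P) / 2`. If the arrangement contains `n + 1` linearly independent hyperplanes `D'`, then
`n m_V(P) ≤ N¹_S(D', P) + ε h(P) + C` for ALL `P` off `D'`. In this range the set of the limit points of
(proximity at each place, loss) is determined completely, with every distribution of the loss among
the hyperplanes, and so is the Hausdorff dimension of the set of the `ξ` which have approximations of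
order `τ` by points of loss at least `Δ h`, for every `τ > 0` and `Δ ≤ 1/2`.
-/

set_option autoImplicit false

open MeasureTheory NumberField Height Finset IsDedekindDomain LinearAlgebra.Projectivization
open NumberField.mixedEmbedding

namespace Pool.Agent.Results.MP_44a246_nt.MetricLawForArrangements

variable {K : Type} [Field K] {n r : ℕ}

/-- the value at `x` of the linear form with coefficients `a` -/
def lin (a x : Fin (n + 1) → K) : K := ∑ j, a j * x j

/-- the local height of the hyperplane `a = 0` at `x` for the absolute value `f` -/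
noncomputable def lam (f : AbsoluteValue K ℝ) (a x : Fin (n + 1) → K) : ℝ :=
  Real.log ((⨆ j, f (a j)) * (⨆ j, f (x j)) / f (lin a x))

/-- the largest sum of local heights over a linearly independent subfamily of the arrangement -/
noncomputable def wt (f : AbsoluteValue K ℝ) (a : Fin r → Fin (n + 1) → K) (x : Fin (n + 1) → K) : ℝ :=
  ⨆ I : {I : Finset (Fin r) // LinearIndependent K (fun i : I => a i)}, ∑ i ∈ I.1, lam f (a i) x

variable [NumberField K]

/-- the `v`-adic absolute value -/
noncomputable def fv (v : HeightOneSpectrum (𝓞 K)) : AbsoluteValue K ℝ := (FinitePlace.mk v).1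

/-- the norm of a prime -/
noncomputable def Nv (v : HeightOneSpectrum (𝓞 K)) : ℝ := (Ideal.absNorm v.asIdeal : ℝ)

/-- the height with respect to `K_X + D + (n + 1) H`: the sum of `wt` over all places -/
noncomputable def hW (a : Fin r → Fin (n + 1) → K) (x : Fin (n + 1) → K) : ℝ :=
  ∑ w : InfinitePlace K, (w.mult : ℝ) * wt w.1 a x + ∑ᶠ v : HeightOneSpectrum (𝓞 K), wt (fv v) a x

open Classical in
/-- the truncated counting function of the arrangement: the sum of `log N(v)` over the primes outside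
`S` at which the point reduces into one of the hyperplanes -/
noncomputable def N1 (S : Finset (HeightOneSpectrum (𝓞 K))) (a : Fin r → Fin (n + 1) → K)
    (x : Fin (n + 1) → K) : ℝ :=
  ∑ᶠ v : HeightOneSpectrum (𝓞 K), if v ∉ S ∧ ∃ i, 0 < lam (fv v) (a i) x then Real.log (Nv v) else 0

/-- the group of the integral finite adelic points: the product over all primes `v` of `O_v^n`, with
the product topology -/
abbrev FinAd (K : Type) [Field K] [NumberField K] (n : ℕ) : Type :=
  (v : HeightOneSpectrum (𝓞 K)) → Fin n → v.adicCompletionIntegers K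

/-- the proximity function at the infinite place `w`: `n_w log max (1, 1 / max_j |ξ_j - x_j / x_0|_w)` -/
noncomputable def mw (ξ : Fin n → mixedSpace K) (w : InfinitePlace K) (x : Fin (n + 1) → K) : ℝ :=
  (w.mult : ℝ) *
    Real.log (max 1 (⨆ j : Fin n, normAtPlace w (ξ j - mixedEmbedding K (x j.succ / x 0)))⁻¹)

/-- the proximity function at the prime `v`: `log max (1, 1 / max_j |η_j - x_j / x_0|_v)` -/
noncomputable def mv (η : FinAd K n) (v : HeightOneSpectrum (𝓞 K)) (x : Fin (n + 1) → K) : ℝ :=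
  Real.log (max 1
    (⨆ j : Fin n, ‖(η v j : v.adicCompletion K) - FinitePlace.embedding v (x j.succ / x 0)‖)⁻¹)

/-- the proximity function at all infinite places and at the primes in `V` -/
noncomputable def prox (V : Finset (HeightOneSpectrum (𝓞 K)))
    (p : (Fin n → mixedSpace K) × FinAd K n) (x : Fin (n + 1) → K) : ℝ :=
  ∑ w : InfinitePlace K, mw p.1 w x + ∑ v ∈ V, mv p.2 v x

/-- `(τ, σ, Δ)` is a limit, for points off the arrangement with `h → ∞`, of
`(n m_w / h, n m_v / h, loss / h)` (`w` infinite, `v ∈ V`) -/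
def IsLimit (S V : Finset (HeightOneSpectrum (𝓞 K))) (a : Fin r → Fin (n + 1) → K)
    (p : (Fin n → mixedSpace K) × FinAd K n) (τ : InfinitePlace K → ℝ)
    (σ : HeightOneSpectrum (𝓞 K) → ℝ) (Δ : ℝ) : Prop :=
  ∀ ε : ℝ, 0 < ε → ∀ B : ℝ, ∃ P : ℙ K (Fin (n + 1) → K), P.rep 0 ≠ 0 ∧
    (∀ i, lin (a i) P.rep ≠ 0) ∧ B ≤ Real.log P.mulHeight ∧
    (∀ w : InfinitePlace K, |n * mw p.1 w P.rep / Real.log P.mulHeight - τ w| ≤ ε) ∧
    (∀ v ∈ V, |n * mv p.2 v P.rep / Real.log P.mulHeight - σ v| ≤ ε) ∧
    |(hW a P.rep - N1 S a P.rep) / Real.log P.mulHeight - Δ| ≤ ε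

open scoped Classical in
/-- the set of the `ξ` for which there are points off the arrangement, with `h → ∞`, at distance at
most `exp (-(τ - o(1)) h)` from `ξ` (maximum over all infinite places and all coordinates) and of
loss at least `(Δ - o(1)) h` -/
def Approximable (S : Finset (HeightOneSpectrum (𝓞 K))) (a : Fin r → Fin (n + 1) → K) (τ Δ : ℝ) :
    Set (Fin n → mixedSpace K) :=
  {ξ | ∀ ε : ℝ, 0 < ε → ∀ B : ℝ, ∃ P : ℙ K (Fin (n + 1) → K), P.rep 0 ≠ 0 ∧
    (∀ i, lin (a i) P.rep ≠ 0) ∧ B ≤ Real.log P.mulHeight ∧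
    ‖ξ - fun j => mixedEmbedding K (P.rep j.succ / P.rep 0)‖ ≤
      Real.exp (-((τ - ε) * Real.log P.mulHeight)) ∧
    (Δ - ε) * Real.log P.mulHeight ≤ hW a P.rep - N1 S a P.rep}

open scoped Classical in
/-- **The metric theory of the truncated inequality for arrangements.** Let `μ` be a finite
translation invariant Borel measure on the compact group `FinAd K n` (a multiple of Haar measure).
(I) For almost every adelic point `p = (ξ, η)` with respect to the product of Lebesgue measure and
`μ`, for all arrangements `a` of `r` hyperplanes, all finite sets `S` and `V` of primes: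
(1) for every `ε > 0` there is `C` such that all rational points off the arrangement with
`n m_V ≥ (n + 1/2 + ε) h` or of loss `≤ h / 2` satisfy `h_(K_X + D) + n m_V ≤ N¹_S(D) + ε h + C`;
(2) if the `n + 1` hyperplanes `D' = (a (g i))_i` of the arrangement are linearly independent, then for
every `ε > 0` there is `C` such that ALL rational points off `D'` satisfy `n m_V ≤ N¹_S(D') + ε h + C`,
and all rational points off the arrangement with `n m_V ≥ h_(K_X + D)` satisfy
`h_(K_X + D) ≤ N¹_S(D) + ε h + C`;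
(3) if the hyperplanes are distinct and `r ≥ 1`, and `Δ ≤ 1/2` or `∑ τ_w + ∑ σ_v > n + 1/2`, then
`(τ, σ, Δ)` is a limit of `(n m_w / h, n m_v / h, loss / h)` if and only if all `τ_w`, all `σ_v` and `Δ`
are `≥ 0` and `∑ τ_w + ∑ σ_v + Δ ≤ n + 1`;
(4) in that case, for every `δ_i ≥ 0` of sum `Δ` there are such points which in addition satisfy
`N¹_S(H_i) / h → 1 - δ_i` for every single hyperplane `H_i`.
(II) For every arrangement of `r ≥ 1` distinct hyperplanes, all `S`, `τ > 0` and `0 ≤ Δ ≤ 1/2`, the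
Hausdorff dimension of `Approximable S a τ Δ` is `min (n [K : ℚ]) ((n + 1 - Δ) / τ)`. -/
theorem result (K : Type) [Field K] [NumberField K] (n : ℕ) (hn : 1 ≤ n)
    [MeasurableSpace (FinAd K n)] [BorelSpace (FinAd K n)] (μ : Measure (FinAd K n))
    [IsFiniteMeasure μ] [μ.IsAddLeftInvariant] :
    (∀ᵐ p : (Fin n → mixedSpace K) × FinAd K n ∂(volume.prod μ),
      ∀ (r : ℕ) (a : Fin r → Fin (n + 1) → K), (∀ i, a i ≠ 0) →
      ∀ S V : Finset (HeightOneSpectrum (𝓞 K)),
        (∀ ε : ℝ, 0 < ε → ∃ C : ℝ, ∀ P : ℙ K (Fin (n + 1) → K),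
          P.rep 0 ≠ 0 → (∀ i, lin (a i) P.rep ≠ 0) →
          (((n : ℝ) + 1 / 2 + ε) * Real.log P.mulHeight ≤ n * prox V p P.rep ∨
            hW a P.rep - N1 S a P.rep ≤ 1 / 2 * Real.log P.mulHeight) →
          hW a P.rep - ((n : ℝ) + 1) * Real.log P.mulHeight + n * prox V p P.rep ≤
            N1 S a P.rep + ε * Real.log P.mulHeight + C) ∧
        (∀ g : Fin (n + 1) → Fin r, LinearIndependent K (fun i => a (g i)) →
          ∀ ε : ℝ, 0 < ε → ∃ C : ℝ, ∀ P : ℙ K (Fin (n + 1) → K), P.rep 0 ≠ 0 →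
            ((∀ i, lin (a (g i)) P.rep ≠ 0) →
              n * prox V p P.rep ≤
                N1 S (fun i => a (g i)) P.rep + ε * Real.log P.mulHeight + C) ∧
            ((∀ i, lin (a i) P.rep ≠ 0) →
              hW a P.rep - ((n : ℝ) + 1) * Real.log P.mulHeight ≤ n * prox V p P.rep →
              hW a P.rep - ((n : ℝ) + 1) * Real.log P.mulHeight ≤
                N1 S a P.rep + ε * Real.log P.mulHeight + C)) ∧
        (0 < r → (∀ i l, i ≠ l → ∀ c : K, a i ≠ c • a l) →
          ∀ (τ : InfinitePlace K → ℝ) (σ : HeightOneSpectrum (𝓞 K) → ℝ) (Δ : ℝ),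
          (Δ ≤ 1 / 2 ∨ (n : ℝ) + 1 / 2 < ∑ w, τ w + ∑ v ∈ V, σ v) →
          (IsLimit S V a p τ σ Δ ↔ (∀ w, 0 ≤ τ w) ∧ (∀ v ∈ V, 0 ≤ σ v) ∧ 0 ≤ Δ ∧
            ∑ w, τ w + ∑ v ∈ V, σ v + Δ ≤ n + 1) ∧
          (IsLimit S V a p τ σ Δ → ∀ δ : Fin r → ℝ, (∀ i, 0 ≤ δ i) → ∑ i, δ i = Δ →
            ∀ ε : ℝ, 0 < ε → ∀ B : ℝ, ∃ P : ℙ K (Fin (n + 1) → K), P.rep 0 ≠ 0 ∧
              (∀ i, lin (a i) P.rep ≠ 0) ∧ B ≤ Real.log P.mulHeight ∧
              (∀ w, |n * mw p.1 w P.rep / Real.log P.mulHeight - τ w| ≤ ε) ∧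
              (∀ v ∈ V, |n * mv p.2 v P.rep / Real.log P.mulHeight - σ v| ≤ ε) ∧
              |(hW a P.rep - N1 S a P.rep) / Real.log P.mulHeight - Δ| ≤ ε ∧
              ∀ i, |N1 S (fun _ : Fin 1 => a i) P.rep / Real.log P.mulHeight - (1 - δ i)| ≤ ε))) ∧
    ∀ (r : ℕ) (a : Fin r → Fin (n + 1) → K), 0 < r → (∀ i, a i ≠ 0) →
      (∀ i l, i ≠ l → ∀ c : K, a i ≠ c • a l) →
      ∀ (S : Finset (HeightOneSpectrum (𝓞 K))) (τ Δ : ℝ), 0 < τ → 0 ≤ Δ → Δ ≤ 1 / 2 →
        dimH (Approximable S a τ Δ) = ENNReal.ofReal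
          (min (n * (Module.finrank ℚ K : ℝ)) (((n : ℝ) + 1 - Δ) / τ)) := by
  refine ⟨?_, fun r a h0 ha hd S τ Δ hτ hΔ0 hΔ =>
    Q273.PD.dimN hn S a ha hd hτ hΔ0 hΔ (Or.inr h0)⟩
  filter_upwards [Q273.AD.lawA Q273.AD.fae' hn μ, Q273.AD.gen_aeA μ,
    Q273.PN.lawS Q273.AD.fae' hn μ] with p hlaw hgen hlawS
  intro r a ha S V
  refine ⟨fun ε hε => ?_, fun g hg ε hε => ?_, fun h0 hd τ σ Δ hr => ?_⟩
  · obtain ⟨C, hC⟩ := hlaw r a ha S V ε hε
    refine ⟨C, fun P _ hP hle => ?_⟩
    have h : n * prox V p P.rep + (hW a P.rep - N1 S a P.rep) ≤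
        ((n : ℝ) + 1 + ε) * Real.log P.mulHeight + C := hC P hP hle
    linarith
  · obtain ⟨C, hC⟩ := hlawS (fun i => a (g i)) hg S V ε hε
    refine ⟨C, fun P _ => ⟨fun hP => hC P hP, fun hP hle => ?_⟩⟩
    have h : n * prox V p P.rep ≤
        N1 S (fun i => a (g i)) P.rep + ε * Real.log P.mulHeight + C := hC P fun i => hP _
    have h2 : N1 S (fun i => a (g i)) P.rep ≤ N1 S a P.rep :=
      Q273.PN.N1_mono S ha P.rep_nonzero hP g
    linarith
  · have hiff := Q273.PD.LimN.iff hn h0 hgen S V a ha hd (hlaw r a ha S) hr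
    refine ⟨hiff, fun hlim δ hδ hs ε hε B => ?_⟩
    obtain ⟨h1, h2, h3, h4⟩ := hiff.1 hlim
    subst hs
    exact Q273.PD.lim_suf hn hgen S V a ha hd (hlaw r a ha S) h1 h2 hδ hr h4 ε hε B

end Pool.Agent.Results.MP_44a246_nt.MetricLawForArrangements
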