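import Pool.Agent.Q183.VC.JGrid
import Pool.Agent.Q183.VC.Joint2
import Pool.Agent.Q183.AM.Forms

/-!
# Vojta's conjecture with truncated counting function for all algebraic points of products of curves
above linear recurrences

For `i ∈ Λ`, a finite set, let `X_i` be a smooth projective curve over a number field and `D_i` a
reduced effective divisor on `X_i`. Let `f_i : X_i → ℙ¹` be a finite map of degree `N_i` over `ℚ` which
is unramified outside the fibres over the rational points `a_{i 1}, …, a_{i q_i}`, and maps the points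
of `D_i` to the `a_{i k}` (such a map exists by Belyi's theorem; we may suppose that `a_{i k} ≠ ∞`). Let
`A_i` be the ring of functions on `X_i` with poles only over `∞`: a Dedekind domain, finite over
`ℚ[f_i]`. The reduced fibres over the `a_{i k}` are decomposed into pieces `E_{i l}`, for example the
closed points over `ℚ`: the piece `E_{i l}`, over the point `a_{i k}` with `k = b_i(l)`, is given by
generators `z_{i l 0} = f_i - a_{i k}, z_{i l 1}, …` of its ideal. The divisor `D_i` is a sum of such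
pieces, and `deg (K_{X_i} + D_i) / N_i = q_i - 2 - (∑ dim (A_i / (z_{i l 0}, z_{i l 1}, …))) / N_i`,
where the sum is over the pieces which are not contained in `D_i`. The points `P_i` of `X_i` (not over
`∞`) over a number field `L` are the homomorphisms `φ_i : A_i → L`, and
`∑_{E_{i l} ≤ D_i} max(0, - log max_k |z_{i l k}(P)|_w)` is a Weil function of `D_i` at `w`.

Let `X` be the product of the `X_i` and `D = ∑ pr_i^* D_i`, a divisor with normal crossings. Let `K` be
a number field and let `x_i(s) = X_{i 0}(s) / X_{i 1}(s)`, where the `X_{i k}` are sequences of integers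
of `K` with linear recurrences with constant coefficients, such that the values at `x_i(s)` of the
equations of the `a_{i k}` are products `κ μ ^ s ∏ g_{i j}(s) ^ e_j` of powers of such sequences, with
arbitrary exponents. We show, for all points `P = (P_i)` of `X` of all degrees above `(x_i(s))`, over
all number fields `L` which contain `K`, for all finite sets `S` of primes and all `D`,
`∑_i (deg (K_{X_i} + D_i) / N_i) h(x_i(s)) ≤
  N_S^(1)(D, P) + ε ∑_i h(x_i(s)) + d(L) - d(K) + (log N(𝔟)) / [K : ℚ] + ∑_{p ∈ S} log p + C`,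
where the product of all different `g_{i j}(s)` is the product of a squarefree ideal and of an ideal
`𝔟` prime to it: for almost all `s` with a constant `C`, with `C + δ s` for all `s`, and with a constant
`C` for all `s` with `∑_i h(x_i(s)) ≥ c s`. There is no exceptional set.
-/

set_option autoImplicit false

namespace Pool.Agent.Results.MP_44a246_nt.PointsAboveRecurrences

open IsDedekindDomain NumberField
open scoped Polynomial

/-- `κ_i μ_i ^ s ∏ g_j(s) ^ e_ij` -/
def val {K : Type} [Field K] [NumberField K] {I J : Type} [Fintype J] (κ μ : I → 𝓞 K)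
    (g : J → ℕ → 𝓞 K) (e : I → J → ℕ) (i : I) (s : ℕ) : 𝓞 K :=
  κ i * μ i ^ s * ∏ j, g j s ^ e i j

open Classical in
/-- the indices `j` of the bases whose exponents `e_ij` are not all equal -/
noncomputable def uneq {I J : Type} [Fintype I] [Fintype J] (e : I → J → ℕ) : Finset J :=
  Finset.univ.filter fun j => ∃ i i', e i j ≠ e i' j

/-- The absolute logarithmic Weil height `h(x)`. -/
noncomputable def height {K : Type} [Field K] [NumberField K] (x : K) : ℝ :=
  (1 / (Module.finrank ℚ K : ℝ)) *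
    ((∑ w : InfinitePlace K, (w.mult : ℝ) * Real.log (max 1 (w x))) +
      ∑ᶠ v : HeightOneSpectrum (𝓞 K), Real.log (max 1 (FinitePlace.mk v x)))

/-- the function `f` -/
noncomputable def coord (A : Type) [CommRing A] [Algebra ℚ[X] A] : A := algebraMap ℚ[X] A .X

/-- `max (0, - log max_i c_i)` -/
noncomputable def minusLog {s : ℕ} (c : Fin (s + 1) → ℝ) : ℝ := max 0 (-Real.log (⨆ i, c i))

/-- The Weil function `λ_{D, w}` at the prime `w` of `L`, where the divisor `D = ∑ pr_i^* D_i` is given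
by the sets `D i` of the indices of the pieces contained in `D_i`. The absolute value of `w` is
normalised so that `|c|_w = N(w) ^ (- w(c))`. -/
noncomputable def localHeight {Λ : Type} [Fintype Λ] {A : Λ → Type} [∀ i, CommRing (A i)]
    {r : Λ → ℕ} {u : ∀ i, Fin (r i) → ℕ} (z : ∀ i l, Fin (u i l + 1) → A i)
    (D : ∀ i, Finset (Fin (r i))) (L : Type) [Field L] [NumberField L] (φ : ∀ i, A i →+* L)
    (w : HeightOneSpectrum (𝓞 L)) : ℝ :=
  ∑ i, ∑ l ∈ D i, minusLog fun k => FinitePlace.mk w (φ i (z i l k))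

open Classical in
/-- The truncated counting function `N_S^(1)(D, P)`: the sum of the `log N(w)` over the primes `w` of
`L`, not over `S`, at which `λ_{D, w}(P)` is positive, divided by `[L : ℚ]`. -/
noncomputable def counting {Λ : Type} [Fintype Λ] {A : Λ → Type} [∀ i, CommRing (A i)]
    {r : Λ → ℕ} {u : ∀ i, Fin (r i) → ℕ} (z : ∀ i l, Fin (u i l + 1) → A i)
    (D : ∀ i, Finset (Fin (r i))) (S : Finset ℕ) (L : Type) [Field L] [NumberField L]
    (φ : ∀ i, A i →+* L) : ℝ :=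
  (∑ᶠ w : HeightOneSpectrum (𝓞 L), if (∀ p ∈ S, (p : 𝓞 L) ∉ w.asIdeal) ∧
    0 < localHeight z D L φ w then Real.log (Ideal.absNorm w.asIdeal) else 0) / Module.finrank ℚ L

/-- The logarithmic discriminant `d(L) = log |disc L| / [L : ℚ]`. -/
noncomputable def logDisc (L : Type) [Field L] [NumberField L] : ℝ :=
  Real.log |(NumberField.discr L : ℝ)| / Module.finrank ℚ L

/-- `q - 2 - (∑_l dim (A / (z_{l 0}, z_{l 1}, …))) / N`, the sum over the pieces outside `D`, where `N`
is the rank of `A` over `ℚ[f]`: the number `deg (K_X + D) / N` of one curve. -/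
noncomputable def degree {A : Type} [CommRing A] [Algebra ℚ A] [Algebra ℚ[X] A] (q : ℕ) {r : ℕ}
    {u : Fin r → ℕ} (z : ∀ l, Fin (u l + 1) → A) (D : Finset (Fin r)) : ℝ :=
  q - 2 - (∑ l ∈ Dᶜ, (Module.finrank ℚ (A ⧸ Ideal.span (Set.range (z l))) : ℝ)) /
    Module.finrank ℚ[X] A

/-- The inequality of Vojta above `(x_i) ∈ K ^ Λ`, where `B` is the product of the different bases:
for all points `P = (φ_i)` of the product of the curves above `(x_i)`, over all number fields `L` which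
contain `K`, all divisors `D` and all finite sets `S` of primes, if `(B) = 𝔞 𝔟` with a squarefree ideal
`𝔞` prime to `𝔟`, then `∑_i (deg (K_{X_i} + D_i) / N_i) h(x_i) ≤
  N_S^(1)(D, P) + ε ∑_i h(x_i) + d(L) - d(K) + (log N 𝔟) / [K : ℚ] + ∑_{p ∈ S} log p + C`. -/
def Vojta {K : Type} [Field K] [NumberField K] {Λ : Type} [Fintype Λ] (A : Λ → Type)
    [∀ i, CommRing (A i)] [∀ i, Algebra ℚ (A i)] [∀ i, Algebra ℚ[X] (A i)] (q : Λ → ℕ)
    {r : Λ → ℕ} {u : ∀ i, Fin (r i) → ℕ} (z : ∀ i l, Fin (u i l + 1) → A i) (B : 𝓞 K)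
    (x : Λ → K) (ε C : ℝ) : Prop :=
  ∀ (L : Type) [Field L] [NumberField L] [Algebra K L] (φ : ∀ i, A i →+* L)
    (D : ∀ i, Finset (Fin (r i))) (S : Finset ℕ),
    (∀ i, φ i (coord (A i)) = algebraMap K L (x i)) → (∀ p ∈ S, p.Prime) →
    ∀ 𝔞 𝔟 : Ideal (𝓞 K), Ideal.span {B} = 𝔞 * 𝔟 → Squarefree 𝔞 → IsCoprime 𝔞 𝔟 →
      ∑ i, degree (q i) (z i) (D i) * height (x i) ≤
        counting z D S L φ + ε * ∑ i, height (x i) + logDisc L - logDisc K +
          Real.log (Ideal.absNorm 𝔟) / Module.finrank ℚ K + ∑ p ∈ S, Real.log p + C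

private theorem height_eq {K : Type} [Field K] [NumberField K] (x : K) :
    Real.log (Height.mulHeight₁ x) = Module.finrank ℚ K * height x :=
  Pool.Agent.W223.AC.MK.height_eq x

private theorem height_nonneg {K : Type} [Field K] [NumberField K] (x : K) : 0 ≤ height x := by
  have h1 := height_eq x
  have h2 : 0 ≤ Real.log (Height.mulHeight₁ x) := Real.log_nonneg (Height.one_le_mulHeight₁ _)
  have h3 : (0 : ℝ) < Module.finrank ℚ K := by exact_mod_cast Module.finrank_pos
  rw [h1] at h2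
  exact nonneg_of_mul_nonneg_right h2 h3

private theorem logHeight_div {K : Type} [Field K] [NumberField K] (X : Fin 2 → 𝓞 K)
    (hX : X 1 ≠ 0) : Height.logHeight (fun k => (X k : K)) =
      Module.finrank ℚ K * height ((X 0 : K) / (X 1 : K)) := by
  have h1 : (X 1 : K) ≠ 0 := RingOfIntegers.coe_ne_zero_iff.mpr hX
  have h2 : (fun k => (X k : K)) = (X 1 : K) • (![(X 0 : K) / (X 1 : K), 1] : Fin 2 → K) := by
    funext k
    rw [Pi.smul_apply, smul_eq_mul]
    fin_cases k
    · show (X 0 : K) = (X 1 : K) * ((X 0 : K) / (X 1 : K))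
      field_simp
    · show (X 1 : K) = (X 1 : K) * 1
      rw [mul_one]
  rw [h2, Height.logHeight_smul_eq_logHeight _ h1, ← height_eq,
    ← Height.logHeight₁_eq_log_mulHeight₁, Height.logHeight₁_eq_logHeight]

open Classical in
private theorem counting_ge {Λ : Type} [Fintype Λ] {A : Λ → Type} [∀ i, CommRing (A i)]
    [∀ i, Algebra ℚ[X] (A i)]
    {r : Λ → ℕ} {u : ∀ i, Fin (r i) → ℕ} (z : ∀ i l, Fin (u i l + 1) → A i)
    (D : ∀ i, Finset (Fin (r i))) (S : Finset ℕ) (L : Type) [Field L] [NumberField L]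
    (φ : ∀ i, A i →+* L) (hz : ∀ i l, φ i (z i l 0) ≠ 0) :
    Pool.Agent.W223.CV.cc S (fun w : HeightOneSpectrum (𝓞 L) => ∃ i ∈ (Finset.univ : Finset Λ),
      ∃ l ∈ D i, Pool.Agent.W223.AC.NearP (z i l) (φ i) w) ≤
      Module.finrank ℚ L * counting z D S L φ := by
  have hL : (0 : ℝ) < Module.finrank ℚ L := by exact_mod_cast Module.finrank_pos
  have h1 : Module.finrank ℚ L * counting z D S L φ =
      Pool.Agent.W223.CV.cc S (fun w : HeightOneSpectrum (𝓞 L) => 0 < localHeight z D L φ w) := by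
    unfold counting
    rw [mul_div_cancel₀ _ hL.ne']
    unfold Pool.Agent.W223.CV.cc Pool.Agent.W223.CV.ct
    exact finsum_congr fun w => if_congr Iff.rfl rfl rfl
  have h0 : ∀ i l (w : HeightOneSpectrum (𝓞 L)),
      0 ≤ minusLog fun k => FinitePlace.mk w (φ i (z i l k)) := fun i l w => le_max_left _ _
  rw [h1]
  refine Pool.Agent.W223.CV.cc_mono (le_refl S) ?_ ?_
  · refine (Set.finite_iUnion fun i => Set.finite_iUnion fun l =>
      Pool.Agent.Q183.VC.lamF_finite (z i l) (φ i) (hz i l)).subset fun w hw => ?_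
    by_contra hcon
    have hw' : 0 < localHeight z D L φ w := hw
    have h2 : localHeight z D L φ w = 0 := by
      refine Finset.sum_eq_zero fun i _ => Finset.sum_eq_zero fun l _ => ?_
      by_contra h3
      exact hcon (Set.mem_iUnion.2 ⟨i, Set.mem_iUnion.2 ⟨l, h3⟩⟩)
    rw [h2] at hw'
    exact lt_irrefl _ hw'
  · rintro w - ⟨i, hi, l, hl, -, h2⟩
    have h3 : 0 < minusLog fun k => FinitePlace.mk w (φ i (z i l k)) := by
      have hmono : StrictMono (WithZeroMulInt.toNNReal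
          (HeightOneSpectrum.absNorm_ne_zero w)) :=
        WithZeroMulInt.toNNReal_strictMono (HeightOneSpectrum.one_lt_absNorm_nnreal w)
      have e : ∀ y : L, FinitePlace.mk w y = WithZeroMulInt.toNNReal
          (HeightOneSpectrum.absNorm_ne_zero w) (w.valuation L y) := Pool.Agent.W125.CV.fv_eq w
      have h4 : ∀ k, FinitePlace.mk w (φ i (z i l k)) < 1 := by
        intro k
        have h5 := hmono (h2 k)
        rw [map_one] at h5
        rw [e]
        exact_mod_cast h5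
      have h5 : (⨆ k, FinitePlace.mk w (φ i (z i l k))) < 1 := by
        obtain ⟨k, hk⟩ := exists_eq_ciSup_of_finite (f := fun k => FinitePlace.mk w (φ i (z i l k)))
        rw [← hk]
        exact h4 k
      have h6 : 0 < ⨆ k, FinitePlace.mk w (φ i (z i l k)) :=
        lt_of_lt_of_le (FinitePlace.pos_iff.2 (hz i l))
          (le_ciSup (f := fun k => FinitePlace.mk w (φ i (z i l k))) (Set.finite_range _).bddAbove 0)
      refine lt_max_of_lt_right ?_
      have := Real.log_neg h6 h5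
      linarith
    refine lt_of_lt_of_le h3 ?_
    refine le_trans ?_ (Finset.single_le_sum (f := fun i => ∑ l ∈ D i, minusLog fun k =>
      FinitePlace.mk w (φ i (z i l k))) (fun i _ => Finset.sum_nonneg fun l _ => h0 i l w) hi)
    exact Finset.single_le_sum (f := fun l => minusLog fun k => FinitePlace.mk w (φ i (z i l k)))
      (fun l _ => h0 i l w) hl

/-- **The deduction** from the truncated inequality for the points of the product of the lines. -/
private theorem vojta_of {K : Type} [Field K] [NumberField K] {Λ : Type} [Fintype Λ] (A : Λ → Type)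
    [∀ i, CommRing (A i)] [∀ i, IsDedekindDomain (A i)] [∀ i, Algebra ℚ (A i)]
    [∀ i, Algebra ℚ[X] (A i)] [∀ i, IsScalarTower ℚ ℚ[X] (A i)]
    [∀ i, Module.Finite ℚ[X] (A i)] [∀ i, FaithfulSMul ℚ[X] (A i)]
    {q r : Λ → ℕ} (a : ∀ i, Fin (q i) → ℚ) (b : ∀ i, Fin (r i) → Fin (q i))
    {u : ∀ i, Fin (r i) → ℕ} (z : ∀ i l, Fin (u i l + 1) → A i)
    (hz : ∀ i l, z i l 0 = coord (A i) - algebraMap ℚ[X] (A i) (.C (a i (b i l))))
    (hcov : ∀ i, ∀ k : Fin (q i), ∏ l with b i l = k, Ideal.span (Set.range (z i l)) ≤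
      (Ideal.span {coord (A i) - algebraMap ℚ[X] (A i) (.C (a i k))}).radical)
    {ε : ℝ} (hε : 0 < ε) :
    ∃ (T : Finset ℕ) (E : ℝ), (∀ p ∈ T, p ≠ 0) ∧ 0 ≤ E ∧
      ∀ {J : Λ → Type} [∀ i, Fintype (J i)] (g : ∀ i, J i → ℕ → 𝓞 K)
        (e : ∀ i, Fin (q i) → J i → ℕ) (X : Λ → Fin 2 → ℕ → 𝓞 K) (C : ℝ),
        0 ≤ C → ∀ s : ℕ, (∀ i, X i 1 s ≠ 0) →
        (∀ i j, (X i 0 s : K) / (X i 1 s : K) ≠ (a i j : K)) →
        Pool.Agent.Q183.VC.PIneq T a g e X (Real.exp C) s →
        Vojta A q z (∏ i, ∏ j ∈ uneq (e i), g i j s) (fun i => (X i 0 s : K) / (X i 1 s : K)) ε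
          (E + C / Module.finrank ℚ K) := by
  classical
  set R₀ : ℝ := 1 + ∑ i, (r i : ℝ) with hR₀
  have hR₀1 : 0 < R₀ := by
    have : 0 ≤ ∑ i, (r i : ℝ) := Finset.sum_nonneg fun i _ => Nat.cast_nonneg _
    linarith
  have hκ : 0 < ε / R₀ := div_pos hε hR₀1
  obtain ⟨M, C₁, hM, hC₁, hj⟩ := Pool.Agent.Q183.VC.joint2 K A a b u z hz hcov hκ
  refine ⟨M.primeFactors, C₁, fun p hp => (Nat.prime_of_mem_primeFactors hp).ne_zero, hC₁, ?_⟩
  intro J _ g e X C hC s hX1 hxa hP L _ _ _ φ D S hφ hS 𝔞 𝔟 k1 k2 k3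
  set x : Λ → K := fun i => (X i 0 s : K) / (X i 1 s : K) with hx
  set n : ℝ := (Module.finrank ℚ K : ℝ) with hn
  set m : ℝ := (Module.finrank K L : ℝ) with hm
  have hn0 : 0 < n := by rw [hn]; exact_mod_cast Module.finrank_pos
  have hm0 : 0 < m := by rw [hm]; exact_mod_cast Module.finrank_pos
  have htow : (Module.finrank ℚ L : ℝ) = n * m := by
    rw [hn, hm]
    exact_mod_cast (Module.finrank_mul_finrank ℚ K L).symm
  have hnm : 0 < n * m := mul_pos hn0 hm0
  obtain ⟨hz0, h1⟩ := hj x hxa L φ S hφ hS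
  have h1 := h1 D
  have h2 := counting_ge z D S L φ hz0
  have h3 := hP 𝔞 𝔟 k1 k2 k3
  rw [max_eq_left (Real.one_le_exp hC), Real.log_exp] at h3
  have h3' : ∑ i, ((q i : ℝ) - 2) * (n * height (x i)) ≤
      Pool.Agent.W223.CV.cc M.primeFactors (fun v => ∃ i ∈ (Finset.univ : Finset Λ),
        Pool.Agent.Q183.VC.NearA (a i) (x i) v) + Real.log (Ideal.absNorm 𝔟) + C := by
    refine le_trans (le_of_eq ?_) h3
    refine Finset.sum_congr rfl fun i _ => ?_
    rw [logHeight_div (fun k => X i k s) (hX1 i)]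
  set N := Pool.Agent.W223.CV.cc M.primeFactors (fun v => ∃ i ∈ (Finset.univ : Finset Λ),
        Pool.Agent.Q183.VC.NearA (a i) (x i) v) with hN
  rw [← hm, htow] at h1
  rw [htow] at h2
  set μ : Λ → ℝ := fun i => (∑ l ∈ (D i)ᶜ, (Module.finrank ℚ
    (A i ⧸ Ideal.span (Set.range (z i l))) : ℝ)) / Module.finrank ℚ[X] (A i) with hμ
  have hdL : logDisc L = Real.log |(discr L : ℝ)| / (n * m) := by
    rw [← htow]
    rfl
  have hdK : logDisc K = m * Real.log |(discr K : ℝ)| / (n * m) := by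
    unfold logDisc
    rw [← hn]
    field_simp
  rw [hdL, hdK]
  set V := counting z D S L φ with hV
  set R := ∑ p ∈ S, Real.log (p : ℝ) with hR'
  set DL := Real.log |(discr L : ℝ)| with hDL
  set DK := Real.log |(discr K : ℝ)| with hDK
  set Nb := Real.log (Ideal.absNorm 𝔟 : ℝ) with hNb
  have e1 : ∑ i, ∑ l ∈ (D i)ᶜ, ((Module.finrank ℚ (A i ⧸ Ideal.span (Set.range (z i l))) : ℝ) /
            Module.finrank ℚ[X] (A i) + ε / R₀) * (m * Real.log (Height.mulHeight₁ (x i))) ≤
      n * m * ∑ i, μ i * height (x i) + ε * (n * m * ∑ i, height (x i)) := by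
    rw [Finset.mul_sum, Finset.mul_sum, Finset.mul_sum, ← Finset.sum_add_distrib]
    refine Finset.sum_le_sum fun i _ => ?_
    rw [← Finset.sum_mul, Finset.sum_add_distrib, ← Finset.sum_div, Finset.sum_const,
      nsmul_eq_mul, height_eq, ← hn]
    have h4 : (((D i)ᶜ.card : ℕ) : ℝ) * (ε / R₀) ≤ ε := by
      have h5 : (((D i)ᶜ.card : ℕ) : ℝ) ≤ R₀ := by
        have h6 := Finset.card_le_univ (D i)ᶜ
        rw [Fintype.card_fin] at h6
        have h7 : (((D i)ᶜ.card : ℕ) : ℝ) ≤ r i := by exact_mod_cast h6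
        have h8 : (r i : ℝ) ≤ ∑ i, (r i : ℝ) :=
          Finset.single_le_sum (f := fun i => (r i : ℝ)) (fun i _ => Nat.cast_nonneg _)
            (Finset.mem_univ i)
        linarith
      calc (((D i)ᶜ.card : ℕ) : ℝ) * (ε / R₀) ≤ R₀ * (ε / R₀) :=
            mul_le_mul_of_nonneg_right h5 hκ.le
        _ = ε := by field_simp
    have h5 : 0 ≤ m * (n * height (x i)) :=
      mul_nonneg hm0.le (mul_nonneg hn0.le (height_nonneg _))
    have h6 := mul_le_mul_of_nonneg_right h4 h5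
    have h7 : μ i = (∑ l ∈ (D i)ᶜ, (Module.finrank ℚ
      (A i ⧸ Ideal.span (Set.range (z i l))) : ℝ)) / Module.finrank ℚ[X] (A i) := rfl
    rw [← h7]
    nlinarith
  have e2 : ∑ i, ((q i : ℝ) - 2) * (n * height (x i)) =
      n * ∑ i, ((q i : ℝ) - 2) * height (x i) := by
    rw [Finset.mul_sum]
    exact Finset.sum_congr rfl fun i _ => by ring
  have e3 : ∑ i, degree (q i) (z i) (D i) * height (x i) =
      ∑ i, ((q i : ℝ) - 2) * height (x i) - ∑ i, μ i * height (x i) := by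
    rw [← Finset.sum_sub_distrib]
    refine Finset.sum_congr rfl fun i _ => ?_
    have : degree (q i) (z i) (D i) = (q i : ℝ) - 2 - μ i := rfl
    rw [this]
    ring
  rw [e2] at h3'
  rw [e3]
  set Q₂ := ∑ i, ((q i : ℝ) - 2) * height (x i) with hQ₂
  set Mu := ∑ i, μ i * height (x i) with hMu
  set Hs := ∑ i, height (x i) with hHs
  have h4 := mul_le_mul_of_nonneg_left h3' hm0.le
  have h7 : n * m * (Q₂ - Mu) ≤ n * m * V + ε * (n * m * Hs) +
      DL - m * DK + m * Nb + n * m * R + m * C + n * m * C₁ := by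
    have e4 : m * (n * Q₂) = n * m * Q₂ := by ring
    have e5 : m * (N + Nb + C) = m * N + m * Nb + m * C := by ring
    have e6 : n * m * (Q₂ - Mu) = n * m * Q₂ - n * m * Mu := by ring
    rw [e4, e5] at h4
    rw [e6]
    linarith
  have e7 : Q₂ - Mu = (n * m * (Q₂ - Mu)) / (n * m) := by
    field_simp
  have e8 : V + ε * Hs + DL / (n * m) - m * DK / (n * m) + Nb / n + R + (C₁ + C / n) =
      (n * m * V + ε * (n * m * Hs) + DL - m * DK + m * Nb + n * m * R + m * C + n * m * C₁) /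
        (n * m) := by
    field_simp
    ring
  rw [e7, e8]
  exact div_le_div_of_nonneg_right h7 hnm.le

/-- **Main theorem.** For `i ∈ Λ` let `X_{i 0}`, `X_{i 1}` and the bases `g_{i j}` have linear
recurrences, and let the values `den(a_{i k}) X_{i 0}(s) - num(a_{i k}) X_{i 1}(s)` be the
`κ_{i k} μ_{i k} ^ s ∏ g_{i j}(s) ^ e_{i k j}`; let `x_i(s) = X_{i 0}(s) / X_{i 1}(s)`.
(1) For all `η, ε > 0` there is a constant `C` such that the inequality of Vojta with `ε` and `C`
holds for all points above `(x_i(s))` and all `D`, for all `s` with `X_{i 1}(s) ≠ 0` and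
`x_i(s) ≠ a_{i k}` except for at most `η N` among any `N` consecutive integers, for `N` large and from
some point on.
(2) For all `δ, ε > 0` there is a constant `C` such that it holds with `ε` and `C + δ s` for all `s`
with `X_{i 1}(s) ≠ 0` and `x_i(s) ≠ a_{i k}`.
(3) For all `c, ε > 0` there is a constant `C` such that it holds with `ε` and `C` for all `s` with
`X_{i 1}(s) ≠ 0`, `x_i(s) ≠ a_{i k}` and `∑_i h(x_i(s)) ≥ c s`. -/
theorem result {K : Type} [Field K] [NumberField K] {Λ : Type} [Fintype Λ] {J : Λ → Type}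
    [∀ i, Fintype (J i)] (g : ∀ i, J i → ℕ → 𝓞 K)
    (hg : ∀ i j, ∃ E : LinearRecurrence (𝓞 K), E.IsSolution (g i j))
    (X : Λ → Fin 2 → ℕ → 𝓞 K) (hX : ∀ i k, ∃ E : LinearRecurrence (𝓞 K), E.IsSolution (X i k))
    {q r : Λ → ℕ} (a : ∀ i, Fin (q i) → ℚ) (ha : ∀ i, Function.Injective (a i))
    (κ μ : ∀ i, Fin (q i) → 𝓞 K) (hμ : ∀ i j, μ i j ≠ 0) (e : ∀ i, Fin (q i) → J i → ℕ)
    (hL : ∀ i j s, ((a i j).den : 𝓞 K) * X i 0 s - ((a i j).num : 𝓞 K) * X i 1 s =
      val (κ i) (μ i) (g i) (e i) j s)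
    (A : Λ → Type) [∀ i, CommRing (A i)] [∀ i, IsDedekindDomain (A i)] [∀ i, Algebra ℚ (A i)]
    [∀ i, Algebra ℚ[X] (A i)] [∀ i, IsScalarTower ℚ ℚ[X] (A i)]
    [∀ i, Module.Finite ℚ[X] (A i)] [∀ i, FaithfulSMul ℚ[X] (A i)]
    (b : ∀ i, Fin (r i) → Fin (q i)) {u : ∀ i, Fin (r i) → ℕ}
    (z : ∀ i l, Fin (u i l + 1) → A i)
    (hz : ∀ i l, z i l 0 = coord (A i) - algebraMap ℚ[X] (A i) (.C (a i (b i l))))
    (hcov : ∀ i, ∀ k : Fin (q i), ∏ l with b i l = k, Ideal.span (Set.range (z i l)) ≤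
      (Ideal.span {coord (A i) - algebraMap ℚ[X] (A i) (.C (a i k))}).radical) :
    let x : ℕ → Λ → K := fun s i => (X i 0 s : K) / (X i 1 s : K)
    let Off : ℕ → Prop := fun s => (∀ i, X i 1 s ≠ 0) ∧ ∀ i k, x s i ≠ (a i k : K)
    let V : ℝ → ℝ → ℕ → Prop := fun ε C s =>
      Vojta A q z (∏ i, ∏ j ∈ uneq (e i), g i j s) (x s) ε C
    (∀ η ε : ℝ, 0 < η → 0 < ε → ∃ (C : ℝ) (T n : ℕ), ∀ t N : ℕ, n ≤ t → T ≤ N →
      (({s | t ≤ s ∧ s < t + N ∧ Off s ∧ ¬ V ε C s}.ncard : ℕ) : ℝ) ≤ η * N) ∧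
    (∀ δ ε : ℝ, 0 < δ → 0 < ε → ∃ C : ℝ, ∀ s : ℕ, Off s → V ε (C + δ * s) s) ∧
    ∀ c ε : ℝ, 0 < c → 0 < ε → ∃ C : ℝ, ∀ s : ℕ, Off s → c * s ≤ ∑ i, height (x s i) →
      V ε C s := by
  classical
  intro x Off V
  have hn0 : (0 : ℝ) < Module.finrank ℚ K := by exact_mod_cast Module.finrank_pos
  have hL' : ∀ i j t, Pool.Agent.Q183.VC.eqn K (a i) j 0 * X i 0 t +
      Pool.Agent.Q183.VC.eqn K (a i) j 1 * X i 1 t =
      Pool.Agent.Q183.AM.hval (κ i) (μ i) (g i) (e i) j t := by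
    intro i j t
    refine Eq.trans ?_ (hL i j t)
    show ((a i j).den : 𝓞 K) * X i 0 t + (-((a i j).num : 𝓞 K)) * X i 1 t = _
    ring
  have hoff : ∀ s, Off s → ∀ i j, Pool.Agent.Q183.AM.hval (κ i) (μ i) (g i) (e i) j s ≠ 0 := by
    rintro s ⟨h1, h2⟩ i j h3
    have h4 : val (κ i) (μ i) (g i) (e i) j s = 0 := h3
    rw [← hL i j s] at h4
    have h5 := congrArg (algebraMap (𝓞 K) K) h4
    rw [map_sub, map_mul, map_mul, map_natCast, map_intCast, map_zero] at h5
    apply h2 i j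
    have h6 : (X i 1 s : K) ≠ 0 := RingOfIntegers.coe_ne_zero_iff.mpr (h1 i)
    have h7 : ((a i j).den : K) ≠ 0 := by exact_mod_cast (a i j).den_nz
    show (X i 0 s : K) / (X i 1 s : K) = _
    rw [Rat.cast_def, div_eq_div_iff h6 h7]
    linear_combination h5
  have part2 : ∀ δ ε : ℝ, 0 < δ → 0 < ε → ∃ C : ℝ, ∀ s : ℕ, Off s → V ε (C + δ * s) s := by
    intro δ ε hδ hε
    obtain ⟨T, E, hT, hE, hdeg⟩ := vojta_of (K := K) A a b z hz hcov hε
    have hEE := Pool.Agent.Q183.VC.jgrid Pool.Agent.Q183.AM.mEE g hg X hX a ha κ μ hμ e hL' T hT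
    have mono : Pool.Agent.Q183.AR.MonoC fun C s =>
        (∀ i j, Pool.Agent.Q183.AM.hval (κ i) (μ i) (g i) (e i) j s ≠ 0) →
        (∀ i, X i 1 s ≠ 0) → Pool.Agent.Q183.VC.PIneq T a g e X C s :=
      fun C C' s hCC h1 h2 h3 => Pool.Agent.Q183.VC.pineq_mono T a g e X C C' s hCC (h1 h2 h3)
    have triv : ∀ s, ∃ C, (∀ i j, Pool.Agent.Q183.AM.hval (κ i) (μ i) (g i) (e i) j s ≠ 0) →
        (∀ i, X i 1 s ≠ 0) → Pool.Agent.Q183.VC.PIneq T a g e X C s := by
      intro s
      set B : ℝ := ∑ i, ((q i : ℝ) - 2) * Height.logHeight (fun k => (X i k s : K)) with hB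
      refine ⟨Real.exp |B|, fun _ _ 𝔞 𝔟 _ _ _ => ?_⟩
      rw [max_eq_left (Real.one_le_exp (abs_nonneg _)), Real.log_exp, ← hB]
      have h0 := le_abs_self B
      have h1 : 0 ≤ Pool.Agent.W223.CV.cc T (fun v => ∃ i ∈ (Finset.univ : Finset Λ),
          Pool.Agent.Q183.VC.NearA (a i) ((X i 0 s : K) / (X i 1 s : K)) v) :=
        finsum_nonneg fun v => Pool.Agent.W223.CV.ct_nonneg _ _ v
      have h2 : 0 ≤ Real.log (Ideal.absNorm 𝔟) := Real.log_natCast_nonneg _
      linarith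
    obtain ⟨C, hC, h⟩ := Pool.Agent.Q183.AM.ee_form hEE mono triv
      (δ * Module.finrank ℚ K) (mul_pos hδ hn0)
    refine ⟨E + C / Module.finrank ℚ K, fun s hs => ?_⟩
    have h1 := hdeg g e X (C + δ * Module.finrank ℚ K * s) (by positivity) s hs.1 hs.2
      (h s (hoff s hs) hs.1)
    have h2 : E + (C + δ * Module.finrank ℚ K * s) / Module.finrank ℚ K =
        E + C / Module.finrank ℚ K + δ * s := by
      field_simp
      ring
    rw [h2] at h1
    exact h1
  refine ⟨fun η ε hη hε => ?_, part2, fun c ε hc hε => ?_⟩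
  · obtain ⟨T, E, hT, hE, hdeg⟩ := vojta_of (K := K) A a b z hz hcov hε
    have hAA := Pool.Agent.Q183.VC.jgrid Pool.Agent.Q183.AM.mAA g hg X hX a ha κ μ hμ e hL' T hT
    obtain ⟨C, T', n, hC, h⟩ := Pool.Agent.Q183.AM.aa_form hAA η hη
    refine ⟨E + C / Module.finrank ℚ K, T', n, fun t N ht hN =>
      Pool.Agent.Q183.AM.ncard_form (h t N ht hN) ?_⟩
    rintro s ⟨k1, k2⟩ k3
    exact k2 (hdeg g e X C hC s k1.1 k1.2 (k3 (hoff s k1) k1.1))
  · obtain ⟨C, h⟩ := part2 (ε / 2 * c) (ε / 2) (by positivity) (by positivity)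
    refine ⟨C, fun s hs hcs L _ _ _ φ D S hφ hS 𝔞 𝔟 h1 h2 h3 => ?_⟩
    refine (h s hs L φ D S hφ hS 𝔞 𝔟 h1 h2 h3).trans ?_
    have h4 : ε / 2 * c * s ≤ ε / 2 * ∑ i, height (x s i) := by
      rw [mul_assoc]
      exact mul_le_mul_of_nonneg_left hcs (by positivity)
    have h5 : ε * ∑ i, height (x s i) = ε / 2 * ∑ i, height (x s i) +
      ε / 2 * ∑ i, height (x s i) := by ring
    rw [h5]
    linarith

end Pool.Agent.Results.MP_44a246_nt.PointsAboveRecurrences
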